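import Mathlib

open Set Metric Filter Topology
open scoped NNReal

namespace Pool.Agent.Results.MP_e93574_an.FixedPoint

/-- The set `Γ` of the problem: continuous, nondecreasing, subadditive maps
`γ : [0,∞) → [0,∞)` with `γ⁻¹({0}) = {0}`. -/
def IsGamma (γ : ℝ≥0 → ℝ≥0) : Prop :=
  Continuous γ ∧ Monotone γ ∧ (∀ s t, γ (s + t) ≤ γ s + γ t) ∧ γ ⁻¹' {0} = {0}

/-- The class `𝒜` of the problem: maps `θ : [0,∞) → [0,∞)` for which there are `ε₀ > 0` and
`γ ∈ Γ` such that, for all `t ≥ 0`, `θ t ≤ ε₀` implies `θ t ≥ γ t`. -/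
def ClassA (θ : ℝ≥0 → ℝ≥0) : Prop :=
  ∃ ε₀ : ℝ≥0, 0 < ε₀ ∧ ∃ γ : ℝ≥0 → ℝ≥0, IsGamma γ ∧ ∀ t, θ t ≤ ε₀ → γ t ≤ θ t

lemma gamma_nsmul {γ : ℝ≥0 → ℝ≥0} (h : IsGamma γ) (t : ℝ≥0) (n : ℕ) :
    γ (n * t) ≤ n * γ t := by
  induction n with
  | zero =>
    have h0 : γ 0 = 0 := by
      have : (0 : ℝ≥0) ∈ γ ⁻¹' {0} := by rw [h.2.2.2]; rfl
      simpa using this
    simp [h0]
  | succ n ih =>
    have := h.2.2.1 (n * t) t
    push_cast
    calc γ ((n + 1) * t) = γ (n * t + t) := by ring_nf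
      _ ≤ γ (n * t) + γ t := this
      _ ≤ n * γ t + γ t := by gcongr
      _ = (n + 1) * γ t := by ring

/-- Linear lower bound for members of `𝒜`. -/
lemma classA_lower {θ : ℝ≥0 → ℝ≥0} (h : ClassA θ) :
    ∃ c : ℝ, 0 < c ∧ c ≤ 1 ∧ ∀ t : ℝ≥0, c * min (t : ℝ) 1 ≤ θ t := by
  obtain ⟨ε₀, hε, γ, hγ, hθ⟩ := h
  have hγ1 : 0 < γ 1 := by
    rcases eq_or_lt_of_le (show (0:ℝ≥0) ≤ γ 1 from zero_le) with h | h
    · exfalso
      have : (1 : ℝ≥0) ∈ γ ⁻¹' {0} := by simp [← h]
      rw [hγ.2.2.2] at this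
      simp at this
    · exact h
  refine ⟨min (min (ε₀ : ℝ) (γ 1 / 2)) 1, ?_, min_le_right _ _, ?_⟩
  · have h1 : (0 : ℝ) < ε₀ := hε
    have h2 : (0 : ℝ) < γ 1 := hγ1
    positivity
  intro t
  have hc1 : min (min (ε₀ : ℝ) (γ 1 / 2)) 1 ≤ ε₀ :=
    (min_le_left _ _).trans (min_le_left _ _)
  have hc2 : min (min (ε₀ : ℝ) (γ 1 / 2)) 1 ≤ γ 1 / 2 :=
    (min_le_left _ _).trans (min_le_right _ _)
  have hc0 : 0 ≤ min (min (ε₀ : ℝ) (γ 1 / 2)) 1 := by
    have h1 : (0 : ℝ) ≤ ε₀ := ε₀.2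
    have h2 : (0 : ℝ) ≤ γ 1 := (γ 1).2
    positivity
  set c := min (min (ε₀ : ℝ) (γ 1 / 2)) 1 with hcdef
  have hm0 : 0 ≤ min (t : ℝ) 1 := le_min t.2 zero_le_one
  have hm1 : min (t : ℝ) 1 ≤ 1 := min_le_right _ _
  by_cases hle : θ t ≤ ε₀
  · have h1 : γ t ≤ θ t := hθ t hle
    have h1' : (γ t : ℝ) ≤ θ t := h1
    refine le_trans ?_ h1'
    rcases le_total 1 t with ht | ht
    · have : γ 1 ≤ γ t := hγ.2.1 ht
      have : (γ 1 : ℝ) ≤ γ t := this
      have h2 : (0 : ℝ) ≤ γ 1 := (γ 1).2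
      calc c * min (t : ℝ) 1 ≤ c * 1 := by gcongr
        _ ≤ γ 1 / 2 := by simpa using hc2
        _ ≤ γ t := by linarith
    · rcases eq_or_lt_of_le (show (0:ℝ≥0) ≤ t from zero_le) with h0 | h0
      · rw [← h0]; simp
      have ht' : (t : ℝ) ≤ 1 := ht
      have h0' : (0 : ℝ) < t := h0
      have hmin : min (t : ℝ) 1 = t := min_eq_left ht'
      rw [hmin]
      -- choose n = ⌈1/t⌉
      set n : ℕ := ⌈(1 / t : ℝ)⌉₊ with hn
      have hn1 : (1 / t : ℝ) ≤ n := Nat.le_ceil _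
      have hn2 : (n : ℝ) < 1 / t + 1 := Nat.ceil_lt_add_one (by positivity)
      have hle1 : (1 : ℝ≥0) ≤ n * t := by
        have : (1 : ℝ) ≤ n * t := by
          rw [div_le_iff₀ h0'] at hn1
          exact hn1
        exact_mod_cast this
      have h3 : γ 1 ≤ n * γ t := (hγ.2.1 hle1).trans (gamma_nsmul hγ t n)
      have h3' : (γ 1 : ℝ) ≤ n * γ t := by exact_mod_cast h3
      have hg0 : (0 : ℝ) ≤ γ t := (γ t).2
      have h4 : (n : ℝ) ≤ 2 / t := by
        have : (1 : ℝ) ≤ 1 / t := by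
          rw [le_div_iff₀ h0']; linarith
        calc (n : ℝ) ≤ 1 / t + 1 := hn2.le
          _ ≤ 1 / t + 1 / t := by linarith
          _ = 2 / t := by ring
      have h5 : (γ 1 : ℝ) ≤ 2 / t * γ t := h3'.trans (by gcongr)
      calc c * t ≤ γ 1 / 2 * t := by gcongr
        _ ≤ (2 / t * γ t) / 2 * t := by gcongr
        _ = γ t := by field_simp
  · have h1 : (ε₀ : ℝ) < θ t := by exact_mod_cast not_le.mp hle
    calc c * min (t : ℝ) 1 ≤ c * 1 := by gcongr
      _ ≤ ε₀ := by simpa using hc1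
      _ ≤ θ t := h1.le

/-- **Positive answer to the question of Amini-Harandi.** Every map from a complete metric space
to its nonempty closed bounded subsets which is weakly contractive with respect to some
`θ ∈ 𝒜` has a fixed point. -/
theorem result {X : Type*} [MetricSpace X] [CompleteSpace X] [Nonempty X]
    (θ : ℝ≥0 → ℝ≥0) (hθ : ClassA θ) (T : X → Set X)
    (hT : ∀ x, (T x).Nonempty ∧ IsClosed (T x) ∧ Bornology.IsBounded (T x))
    (hw : ∀ x y, hausdorffDist (T x) (T y) ≤ dist x y - θ (nndist x y)) :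
    ∃ x, x ∈ T x := by
  classical
  obtain ⟨c, hc0, hc1, hc⟩ := classA_lower hθ
  have hfin : ∀ x y, hausdorffEDist (T x) (T y) ≠ ⊤ := fun x y =>
    hausdorffEDist_ne_top_of_nonempty_of_bounded (hT x).1 (hT y).1 (hT x).2.2 (hT y).2.2
  have hH : ∀ x y, hausdorffDist (T x) (T y) ≤ dist x y - c * min (dist x y) 1 := by
    intro x y
    have := hc (nndist x y)
    rw [coe_nndist] at this
    linarith [hw x y]
  have hH' : ∀ x y, hausdorffDist (T x) (T y) ≤ dist x y := by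
    intro x y
    have h1 : 0 ≤ min (dist x y) 1 := le_min dist_nonneg zero_le_one
    have := hH x y
    nlinarith
  by_contra hno
  push Not at hno
  -- one step
  have step : ∀ p : {p : X × X // p.2 ∈ T p.1}, ∃ q : {q : X × X // q.2 ∈ T q.1},
      q.1.1 = p.1.2 ∧ dist q.1.1 q.1.2 < dist p.1.1 p.1.2 - c / 2 * min (dist p.1.1 p.1.2) 1 := by
    rintro ⟨⟨x, y⟩, hxy⟩
    have hne : x ≠ y := by
      rintro rfl
      exact hno x hxy
    have hd : 0 < dist x y := dist_pos.mpr hne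
    have h1 : infDist y (T y) ≤ hausdorffDist (T x) (T y) :=
      infDist_le_hausdorffDist_of_mem hxy (hfin x y)
    have hm : 0 < min (dist x y) 1 := lt_min hd one_pos
    have h2 : infDist y (T y) < dist x y - c / 2 * min (dist x y) 1 := by
      have := hH x y
      nlinarith
    obtain ⟨z, hz, hyz⟩ := (infDist_lt_iff (hT y).1).mp h2
    exact ⟨⟨(y, z), hz⟩, rfl, hyz⟩
  choose F hF1 hF2 using step
  obtain ⟨x₀⟩ := ‹Nonempty X›
  obtain ⟨x₁, hx₁⟩ := (hT x₀).1
  let u : ℕ → {p : X × X // p.2 ∈ T p.1} := fun n => F^[n] ⟨(x₀, x₁), hx₁⟩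
  have hu : ∀ n, u (n + 1) = F (u n) := fun n => Function.iterate_succ_apply' F n _
  let x : ℕ → X := fun n => (u n).1.1
  have hx1 : ∀ n, x (n + 1) = (u n).1.2 := by
    intro n
    show (u (n + 1)).1.1 = _
    rw [hu, hF1]
  have hmem : ∀ n, x (n + 1) ∈ T (x n) := by
    intro n
    rw [hx1]
    exact (u n).2
  let d : ℕ → ℝ := fun n => dist (x n) (x (n + 1))
  have hd0 : ∀ n, 0 ≤ d n := fun n => dist_nonneg
  have hdstep : ∀ n, d (n + 1) ≤ d n - c / 2 * min (d n) 1 := by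
    intro n
    have h := hF2 (u n)
    rw [← hu] at h
    show dist (x (n + 1)) (x (n + 1 + 1)) ≤
      dist (x n) (x (n + 1)) - c / 2 * min (dist (x n) (x (n + 1))) 1
    rw [hx1 (n + 1), hx1 n, ← hx1 n]
    have : dist (x (n + 1)) (u (n + 1)).1.2 <
      dist (x n) (u n).1.2 - c / 2 * min (dist (x n) (u n).1.2) 1 := h
    rw [← hx1 n] at this
    exact this.le
  set D := max (d 0) 1 with hD
  have hD1 : 1 ≤ D := le_max_right _ _
  have hD0 : 0 < D := by linarith
  have hdD : ∀ n, d n ≤ D := by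
    intro n
    induction n with
    | zero => exact le_max_left _ _
    | succ n ih =>
      have h1 : 0 ≤ min (d n) 1 := le_min (hd0 n) zero_le_one
      have := hdstep n
      nlinarith
  set r := 1 - c / 2 / D with hr
  have hr1 : r < 1 := by
    have : 0 < c / 2 / D := by positivity
    linarith
  have hr0 : 0 ≤ r := by
    have : c / 2 / D ≤ 1 := by
      rw [div_le_one hD0]; linarith
    linarith
  have hgeo : ∀ n, d (n + 1) ≤ r * d n := by
    intro n
    have h1 : d n / D ≤ min (d n) 1 := by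
      refine le_min ?_ ?_
      · exact div_le_self (hd0 n) hD1
      · rw [div_le_one hD0]; exact hdD n
    have := hdstep n
    calc d (n + 1) ≤ d n - c / 2 * min (d n) 1 := this
      _ ≤ d n - c / 2 * (d n / D) := by
        have : c / 2 * (d n / D) ≤ c / 2 * min (d n) 1 := by gcongr
        linarith
      _ = r * d n := by rw [hr]; ring
  have hpow : ∀ n, d n ≤ D * r ^ n := by
    intro n
    induction n with
    | zero => simpa using hdD 0
    | succ n ih =>
      calc d (n + 1) ≤ r * d n := hgeo n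
        _ ≤ r * (D * r ^ n) := by gcongr
        _ = D * r ^ (n + 1) := by ring
  have hcau : CauchySeq x := cauchySeq_of_le_geometric r D hr1 hpow
  obtain ⟨z, hz⟩ := cauchySeq_tendsto_of_complete hcau
  apply hno z
  rw [(hT z).2.1.mem_iff_infDist_zero (hT z).1]
  have hle : ∀ n, infDist z (T z) ≤ dist z (x (n + 1)) + dist (x n) z := by
    intro n
    have h1 : infDist z (T z) ≤ infDist (x (n + 1)) (T z) + dist z (x (n + 1)) :=
      infDist_le_infDist_add_dist
    have h2 : infDist (x (n + 1)) (T z) ≤ hausdorffDist (T (x n)) (T z) :=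
      infDist_le_hausdorffDist_of_mem (hmem n) (hfin _ _)
    have h3 := hH' (x n) z
    linarith
  have hlim : Tendsto (fun n => dist z (x (n + 1)) + dist (x n) z) atTop (𝓝 0) := by
    have h1 : Tendsto (fun n => dist z (x (n + 1))) atTop (𝓝 0) := by
      have := (tendsto_iff_dist_tendsto_zero.mp hz).comp (tendsto_add_atTop_nat 1)
      simpa [Function.comp_def, dist_comm] using this
    have h2 : Tendsto (fun n => dist (x n) z) atTop (𝓝 0) :=
      tendsto_iff_dist_tendsto_zero.mp hz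
    simpa using h1.add h2
  exact le_antisymm (ge_of_tendsto' hlim hle) infDist_nonneg

end Pool.Agent.Results.MP_e93574_an.FixedPoint
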